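import Mathlib

/-!
# Steinberg's relations of type `A_(n-1)`: definitions
-/

namespace ThKS

/-- `w(t) = x(t) y(-1/t) x(t)` -/
def ww {K : Type*} [Field K] {G : Type*} [Group G] (X Y : K → G) (t : K) : G := X t * Y (-t⁻¹) * X t

/-- `h(t) = w(t) w(1)⁻¹` -/
def hw {K : Type*} [Field K] {G : Type*} [Group G] (X Y : K → G) (t : K) : G := ww X Y t * (ww X Y 1)⁻¹

/-- the relations of the elementary matrices of size two -/
structure Sl2 {K : Type*} [Field K] {G : Type*} [Group G] (X Y : K → G) : Prop where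
  ax : ∀ t u, X (t + u) = X t * X u
  ay : ∀ t u, Y (t + u) = Y t * Y u
  co : ∀ t, t ≠ 0 → ∀ u, ww X Y t * X u * (ww X Y t)⁻¹ = Y (-(t⁻¹ ^ 2 * u))
  hm : ∀ t u, t ≠ 0 → u ≠ 0 → hw X Y (t * u) = hw X Y t * hw X Y u

/-- the relations of the elementary matrices `1 + t e_ij` (`i ≠ j`) -/
structure Stn (K : Type*) [Field K] (n : ℕ) {G : Type*} [Group G] (x : Fin n → Fin n → K → G) : Prop where
  sl : ∀ i j, i ≠ j → Sl2 (x i j) (x j i)
  mul : ∀ i j k, i ≠ j → j ≠ k → i ≠ k → ∀ t u, x i j t * x j k u * (x i j t)⁻¹ * (x j k u)⁻¹ = x i k (t * u)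
  com : ∀ i j k l, i ≠ j → k ≠ l → j ≠ k → i ≠ l → ∀ t u, x i j t * x k l u = x k l u * x i j t

end ThKS
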