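import Mathlib
import Pool.Agent.ThKS.Defs

/-!
# Computations in rank one
-/

namespace ThKS

variable {K : Type*} [Field K] {G : Type*} [Group G] {X Y : K → G}

theorem Sl2.x0 (h : Sl2 X Y) : X 0 = 1 := by
  have h1 := h.ax 0 0
  rw [add_zero] at h1
  exact (mul_eq_left.mp h1.symm)

theorem Sl2.y0 (h : Sl2 X Y) : Y 0 = 1 := by
  have h1 := h.ay 0 0
  rw [add_zero] at h1
  exact (mul_eq_left.mp h1.symm)

theorem Sl2.xi (h : Sl2 X Y) (t : K) : (X t)⁻¹ = X (-t) := by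
  apply inv_eq_of_mul_eq_one_left
  rw [← h.ax, neg_add_cancel, h.x0]

theorem Sl2.yi (h : Sl2 X Y) (t : K) : (Y t)⁻¹ = Y (-t) := by
  apply inv_eq_of_mul_eq_one_left
  rw [← h.ay, neg_add_cancel, h.y0]

theorem Sl2.wi (h : Sl2 X Y) (t : K) : (ww X Y t)⁻¹ = ww X Y (-t) := by
  unfold ww
  rw [mul_inv_rev, mul_inv_rev, h.xi, h.yi, inv_neg, mul_assoc]

/-- `w(t) y(u) w(t)⁻¹ = x(-t² u)` -/
theorem Sl2.co' (h : Sl2 X Y) {t : K} (ht : t ≠ 0) (u : K) : ww X Y t * Y u * (ww X Y t)⁻¹ = X (-(t ^ 2 * u)) := by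
  have h1 := h.co (-t) (neg_ne_zero.mpr ht) (-(t ^ 2 * u))
  have h2 : -((-t)⁻¹ ^ 2 * -(t ^ 2 * u)) = u := by
    field_simp
  rw [h2, ← h.wi, inv_inv] at h1
  rw [← h1]
  group

/-- `w(t) x(u) = y(-u/t²) w(t)` -/
theorem Sl2.wx (h : Sl2 X Y) {t : K} (ht : t ≠ 0) (u : K) : ww X Y t * X u = Y (-(t⁻¹ ^ 2 * u)) * ww X Y t := by
  rw [← h.co t ht]; group

theorem Sl2.wy (h : Sl2 X Y) {t : K} (ht : t ≠ 0) (u : K) : ww X Y t * Y u = X (-(t ^ 2 * u)) * ww X Y t := by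
  rw [← h.co' ht]; group

theorem Sl2.w_eq (h : Sl2 X Y) {t : K} (ht : t ≠ 0) : ww X Y t = Y (-t⁻¹) * X t * Y (-t⁻¹) := by
  have h1 := h.wx ht t
  have h2 : -(t⁻¹ ^ 2 * t) = -t⁻¹ := by field_simp
  rw [h2] at h1
  have h3 : ww X Y t = X t * Y (-t⁻¹) * X t := rfl
  -- w x(t) = y(-1/t) w
  have h4 : ww X Y t * X t = Y (-t⁻¹) * (X t * Y (-t⁻¹)) * X t := by
    rw [h1, h3]; group
  have h5 := mul_right_cancel h4
  rw [h5]; group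

theorem Sl2.h1 : hw X Y 1 = 1 := mul_inv_cancel _

theorem Sl2.hi (h : Sl2 X Y) {t : K} (ht : t ≠ 0) : (hw X Y t)⁻¹ = hw X Y t⁻¹ := by
  apply inv_eq_of_mul_eq_one_left
  rw [← h.hm _ _ (inv_ne_zero ht) ht, inv_mul_cancel₀ ht, Sl2.h1]

theorem Sl2.hw_eq (t : K) : ww X Y t = hw X Y t * ww X Y 1 := by
  unfold hw; group

/-- `w(u) w(s) = h(-u/s)` -/
theorem Sl2.w_mul (h : Sl2 X Y) {u s : K} (hu : u ≠ 0) (hs : s ≠ 0) : ww X Y u * ww X Y s = hw X Y (-(u / s)) := by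
  have h1 : ww X Y s = (ww X Y (-s))⁻¹ := by rw [h.wi, neg_neg]
  have hs' : -s ≠ 0 := neg_ne_zero.mpr hs
  have h2 : -(u / s) = u * (-s)⁻¹ := by field_simp
  rw [h1, h2, h.hm _ _ hu (inv_ne_zero hs'), ← h.hi hs']
  unfold hw; group

/-- `w(t) h(s) = w(t/s)` -/
theorem Sl2.wh (h : Sl2 X Y) {t s : K} (ht : t ≠ 0) (hs : s ≠ 0) : ww X Y t * hw X Y s = ww X Y (t / s) := by
  have h1 : hw X Y s = ww X Y s * ww X Y (-1) := by rw [hw, h.wi]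
  have hm1 : (-1 : K) ≠ 0 := neg_ne_zero.mpr one_ne_zero
  rw [h1, ← mul_assoc, h.w_mul ht hs]
  have h2 : ww X Y (-1) = hw X Y (-1) * ww X Y 1 := Sl2.hw_eq _
  rw [h2, ← mul_assoc, ← h.hm _ _ (neg_ne_zero.mpr (div_ne_zero ht hs)) hm1, ← Sl2.hw_eq]
  congr 1
  ring

theorem Sl2.hx (h : Sl2 X Y) {s : K} (hs : s ≠ 0) (u : K) : hw X Y s * X u * (hw X Y s)⁻¹ = X (s ^ 2 * u) := by
  have h1 : hw X Y s = ww X Y s * ww X Y (-1) := by rw [hw, h.wi]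
  have hm1 : (-1 : K) ≠ 0 := neg_ne_zero.mpr one_ne_zero
  rw [h1, mul_inv_rev]
  calc ww X Y s * ww X Y (-1) * X u * ((ww X Y (-1))⁻¹ * (ww X Y s)⁻¹)
      = ww X Y s * (ww X Y (-1) * X u * (ww X Y (-1))⁻¹) * (ww X Y s)⁻¹ := by group
    _ = X (s ^ 2 * u) := by
        rw [h.co _ hm1, h.co' hs]
        congr 1
        field_simp

theorem Sl2.hy (h : Sl2 X Y) {s : K} (hs : s ≠ 0) (u : K) : hw X Y s * Y u * (hw X Y s)⁻¹ = Y (s⁻¹ ^ 2 * u) := by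
  have h1 : hw X Y s = ww X Y s * ww X Y (-1) := by rw [hw, h.wi]
  have hm1 : (-1 : K) ≠ 0 := neg_ne_zero.mpr one_ne_zero
  rw [h1, mul_inv_rev]
  calc ww X Y s * ww X Y (-1) * Y u * ((ww X Y (-1))⁻¹ * (ww X Y s)⁻¹)
      = ww X Y s * (ww X Y (-1) * Y u * (ww X Y (-1))⁻¹) * (ww X Y s)⁻¹ := by group
    _ = Y (s⁻¹ ^ 2 * u) := by
        rw [h.co' hm1, h.co _ hs]
        congr 1
        ring

/-- `x(t) = y(1/t) w(t) y(1/t)` -/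
theorem Sl2.x_eq (h : Sl2 X Y) {t : K} (ht : t ≠ 0) : X t = Y t⁻¹ * ww X Y t * Y t⁻¹ := by
  have h1 : Y (-t⁻¹) = (Y t⁻¹)⁻¹ := (h.yi _).symm
  rw [h.w_eq ht, h1]; group

/-- `y(w) = x(1/w) w(-1/w) x(1/w)` -/
theorem Sl2.y_eq (h : Sl2 X Y) (w : K) : Y w = X w⁻¹ * ww X Y (-w⁻¹) * X w⁻¹ := by
  have h1 : X w⁻¹ = (X (-w⁻¹))⁻¹ := by rw [h.xi, neg_neg]
  rw [h1]
  unfold ww
  rw [inv_neg, inv_inv, neg_neg]; group

theorem Sl2.xy (h : Sl2 X Y) {t v : K} (hr : 1 + t * v ≠ 0) :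
    X t * Y v = Y (v / (1 + t * v)) * hw X Y (1 + t * v) * X (t / (1 + t * v)) := by
  rcases eq_or_ne t 0 with ht | ht
  · subst ht
    simp only [zero_mul, add_zero, div_one, h.x0, one_mul, mul_one, Sl2.h1]
  · have h1 : X t * Y v = Y t⁻¹ * ww X Y t * Y ((1 + t * v) / t) := by
      rw [h.x_eq ht, mul_assoc _ (Y t⁻¹) (Y v), ← h.ay]
      congr 2
      field_simp
    have h2 : ((1 + t * v) / t)⁻¹ = t / (1 + t * v) := inv_div _ _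
    rw [h1, h.y_eq ((1 + t * v) / t), h2]
    have h3 := h.wx ht (t / (1 + t * v))
    have h4 := h.w_mul ht (neg_ne_zero.mpr (div_ne_zero ht hr))
    calc Y t⁻¹ * ww X Y t * (X (t / (1 + t * v)) * ww X Y (-(t / (1 + t * v))) * X (t / (1 + t * v)))
        = Y t⁻¹ * (ww X Y t * X (t / (1 + t * v))) * ww X Y (-(t / (1 + t * v))) * X (t / (1 + t * v)) := by group
      _ = (Y t⁻¹ * Y (-(t⁻¹ ^ 2 * (t / (1 + t * v))))) * (ww X Y t * ww X Y (-(t / (1 + t * v)))) * X (t / (1 + t * v)) := by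
          rw [h3]; group
      _ = Y (v / (1 + t * v)) * hw X Y (1 + t * v) * X (t / (1 + t * v)) := by
          rw [h4, ← h.ay]
          congr 2
          · congr 1
            field_simp
            ring
          · congr 1
            field_simp

/-- `x(t) y(-1/t) = w(t) x(-t)` -/
theorem Sl2.xy0 (h : Sl2 X Y) (t : K) : X t * Y (-t⁻¹) = ww X Y t * X (-t) := by
  rw [← h.xi]; unfold ww; group

/-- `x(u) w(s) = y(1/u) h(-u/s) x(-s²/u)` -/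
theorem Sl2.xw (h : Sl2 X Y) {u s : K} (hu : u ≠ 0) (hs : s ≠ 0) :
    X u * ww X Y s = Y u⁻¹ * hw X Y (-(u / s)) * X (-(s ^ 2 / u)) := by
  have h1 := h.wx hs (-(s ^ 2 / u))
  have h2 : -(s⁻¹ ^ 2 * -(s ^ 2 / u)) = u⁻¹ := by field_simp
  rw [h2] at h1
  rw [← h.w_mul hu hs]
  calc X u * ww X Y s = Y u⁻¹ * ww X Y u * (Y u⁻¹ * ww X Y s) := by
        conv_lhs => rw [h.x_eq hu]
        group
    _ = Y u⁻¹ * ww X Y u * (ww X Y s * X (-(s ^ 2 / u))) := by rw [h1]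
    _ = Y u⁻¹ * (ww X Y u * ww X Y s) * X (-(s ^ 2 / u)) := by group

end ThKS
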