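import Mathlib
import Pool.Agent.ThKS.Rk1

/-!
# The closure computation: `Γ = A h(K*) Q ∪ M w(K*) Q`
-/

namespace ThKS

variable {K : Type*} [Field K] {G : Type*} [Group G]

/-- the action of rank one on a pair of root groups -/
structure Pr (X Y P R : K → G) (e : K) : Prop where
  ee : e * e = 1
  pp : ∀ t u, P (t + u) = P t * P u
  rr : ∀ t u, R (t + u) = R t * R u
  xp : ∀ s t, X s * P t * (X s)⁻¹ = R (e * (s * t)) * P t
  xr : ∀ s t, X s * R t * (X s)⁻¹ = R t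
  yr : ∀ s t, Y s * R t * (Y s)⁻¹ = P (e * (s * t)) * R t
  yp : ∀ s t, Y s * P t * (Y s)⁻¹ = P t
  pr : ∀ s t, P s * R t = R t * P s

variable {X Y P R : K → G} {e : K}

private theorem cj3 (a b g : G) : a * (b * g * b⁻¹) * a⁻¹ = (a * b) * g * (a * b)⁻¹ := by group

theorem Pr.wp (_h : Sl2 X Y) (p : Pr X Y P R e) {s : K} (hs : s ≠ 0) (t : K) :
    ww X Y s * P t * (ww X Y s)⁻¹ = R (e * (s * t)) := by
  unfold ww
  rw [← cj3, ← cj3, p.xp]
  have hz : P 0 = 1 := by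
    have h1 := p.pp 0 0
    rw [add_zero] at h1
    exact (mul_eq_left.mp h1.symm)
  have h1 : Y (-s⁻¹) * (R (e * (s * t)) * P t) * (Y (-s⁻¹))⁻¹ = R (e * (s * t)) := by
    have h2 : Y (-s⁻¹) * (R (e * (s * t)) * P t) * (Y (-s⁻¹))⁻¹
      = (Y (-s⁻¹) * R (e * (s * t)) * (Y (-s⁻¹))⁻¹) * (Y (-s⁻¹) * P t * (Y (-s⁻¹))⁻¹) := by group
    rw [h2, p.yr, p.yp, mul_assoc, ← p.pr, ← mul_assoc, ← p.pp]
    have h3 : e * (-s⁻¹ * (e * (s * t))) + t = 0 := by
      have h4 : e * (-s⁻¹ * (e * (s * t))) = -((e * e) * (s⁻¹ * s) * t) := by ring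
      rw [h4, p.ee, inv_mul_cancel₀ hs]; ring
    rw [h3, hz, one_mul]
  rw [h1, p.xr]

theorem Pr.wr (h : Sl2 X Y) (p : Pr X Y P R e) {s : K} (hs : s ≠ 0) (t : K) :
    ww X Y s * R t * (ww X Y s)⁻¹ = P (-(e * (t / s))) := by
  have h1 := p.wp h hs (-(e * (t / s)))
  have h2 : e * (s * -(e * (t / s))) = -t := by
    have h4 : e * (s * -(e * (t / s))) = -((e * e) * (s * (t / s))) := by ring
    rw [h4, p.ee, mul_div_cancel₀ _ hs, one_mul]
  rw [h2] at h1
  have hs' : (-s) ≠ 0 := neg_ne_zero.mpr hs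
  have h3 := p.wp h hs' (e * (t / s))
  have h5 : e * (-s * (e * (t / s))) = -t := by
    have h4 : e * (-s * (e * (t / s))) = -((e * e) * (s * (t / s))) := by ring
    rw [h4, p.ee, mul_div_cancel₀ _ hs, one_mul]
  rw [h5, ← h.wi, inv_inv] at h3
  have h6 : ww X Y s * R (-t) * (ww X Y s)⁻¹ = P (e * (t / s)) := by
    rw [← h3]; group
  have hp0 : ∀ u, (P u)⁻¹ = P (-u) := fun u => by
    apply inv_eq_of_mul_eq_one_left
    have h7 := p.pp 0 0
    rw [add_zero] at h7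
    rw [← p.pp, neg_add_cancel]
    exact (mul_eq_left.mp h7.symm)
  have hr0 : ∀ u, (R u)⁻¹ = R (-u) := fun u => by
    apply inv_eq_of_mul_eq_one_left
    have h7 := p.rr 0 0
    rw [add_zero] at h7
    rw [← p.rr, neg_add_cancel]
    exact (mul_eq_left.mp h7.symm)
  rw [← hp0, ← h6, ← hr0]; group

theorem Pr.hp (h : Sl2 X Y) (p : Pr X Y P R e) {s : K} (hs : s ≠ 0) (t : K) :
    hw X Y s * P t * (hw X Y s)⁻¹ = P (t / s) := by
  have h1 : hw X Y s = ww X Y s * ww X Y (-1) := by rw [hw, h.wi]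
  have hm1 : (-1 : K) ≠ 0 := neg_ne_zero.mpr one_ne_zero
  rw [h1, ← cj3, p.wp h hm1, p.wr h hs]
  congr 1
  have h4 : -(e * (e * (-1 * t) / s)) = (e * e) * (t / s) := by ring
  rw [h4, p.ee, one_mul]

theorem Pr.hr (h : Sl2 X Y) (p : Pr X Y P R e) {s : K} (hs : s ≠ 0) (t : K) :
    hw X Y s * R t * (hw X Y s)⁻¹ = R (s * t) := by
  have h1 : hw X Y s = ww X Y s * ww X Y (-1) := by rw [hw, h.wi]
  have hm1 : (-1 : K) ≠ 0 := neg_ne_zero.mpr one_ne_zero
  rw [h1, ← cj3, p.wr h hm1, p.wp h hs]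
  congr 1
  have h4 : e * (s * -(e * (t / -1))) = (e * e) * (s * t) := by
    rw [div_neg, div_one]; ring
  rw [h4, p.ee, one_mul]

/-- conjugation of a closure -/
theorem cj_mem {S : Set G} {N : Subgroup G} {g : G} (h : ∀ s ∈ S, g * s * g⁻¹ ∈ N) {x : G}
    (hx : x ∈ Subgroup.closure S) : g * x * g⁻¹ ∈ N := by
  have h1 : Subgroup.closure S ≤ N.comap (MulAut.conj g).toMonoidHom := by
    rw [Subgroup.closure_le]
    intro s hs
    exact h s hs
  exact h1 hx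

theorem cj_mem' {S : Set G} {N : Subgroup G} {g : G} (h : ∀ s ∈ S, g⁻¹ * s * g ∈ N) {x : G}
    (hx : x ∈ Subgroup.closure S) : g⁻¹ * x * g ∈ N := by
  have h1 := cj_mem (g := g⁻¹) (N := N) (S := S) (by simpa using h) hx
  simpa using h1

/-- normalisers -/
theorem nrm {R S : Set G} (hR : ∀ r ∈ R, r⁻¹ ∈ R) (h : ∀ r ∈ R, ∀ s ∈ S, r * s * r⁻¹ ∈ Subgroup.closure S) {g : G}
    (hg : g ∈ Subgroup.closure R) : ∀ x ∈ Subgroup.closure S, g * x * g⁻¹ ∈ Subgroup.closure S ∧ g⁻¹ * x * g ∈ Subgroup.closure S := by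
  induction hg using Subgroup.closure_induction with
  | mem r hr =>
    intro x hx
    refine ⟨cj_mem (h r hr) hx, ?_⟩
    have h1 := cj_mem (h r⁻¹ (hR r hr)) hx
    simpa using h1
  | one => intro x hx; simpa using hx
  | mul a b _ _ ha hb =>
    intro x hx
    constructor
    · have h1 := (ha _ (hb x hx).1).1
      rwa [cj3] at h1
    · have h1 := (hb _ (ha x hx).2).2
      have h2 : b⁻¹ * (a⁻¹ * x * a) * b = (a * b)⁻¹ * x * (a * b) := by group
      rwa [h2] at h1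
  | inv a _ ha =>
    intro x hx
    rw [inv_inv]
    exact ⟨(ha x hx).2, (ha x hx).1⟩

section
variable {n : ℕ} {x : Fin n → Fin n → K → G}

theorem Stn.cj (h : Stn K n x) {i j k : Fin n} (hij : i ≠ j) (hjk : j ≠ k) (hik : i ≠ k) (t u : K) :
    x i j t * x j k u * (x i j t)⁻¹ = x i k (t * u) * x j k u := by
  rw [← h.mul i j k hij hjk hik]; group

theorem Stn.inv (h : Stn K n x) {i j : Fin n} (hij : i ≠ j) (t : K) : (x i j t)⁻¹ = x i j (-t) := (h.sl i j hij).xi t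

theorem Stn.cj' (h : Stn K n x) {i j k : Fin n} (hij : i ≠ j) (hjk : j ≠ k) (hik : i ≠ k) (t u : K) :
    x j k u * x i j t * (x j k u)⁻¹ = x i k (-(t * u)) * x i j t := by
  rw [← h.inv hik, ← h.mul i j k hij hjk hik]; group

theorem Stn.cc (h : Stn K n x) {i j k l : Fin n} (hij : i ≠ j) (hkl : k ≠ l) (hjk : j ≠ k) (hil : i ≠ l) (t u : K) :
    x i j t * x k l u * (x i j t)⁻¹ = x k l u := by
  rw [h.com i j k l hij hkl hjk hil]; group

theorem Stn.prc (h : Stn K n x) {i j k : Fin n} (hij : i ≠ j) (hki : k ≠ i) (hkj : k ≠ j) :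
    Pr (x i j) (x j i) (x k i) (x k j) (-1) where
  ee := by ring
  pp := (h.sl k i hki).ax
  rr := (h.sl k j hkj).ax
  xp := fun s t => by
    rw [h.cj' hki hij hkj]; congr 2; ring
  xr := fun s t => h.cc hij hkj hkj.symm hij s t
  yr := fun s t => by
    rw [h.cj' hkj hij.symm hki]; congr 2; ring
  yp := fun s t => h.cc hij.symm hki hki.symm hij.symm s t
  pr := fun s t => h.com k i k j hki hkj hki.symm hkj s t

theorem Stn.prr (h : Stn K n x) {i j k : Fin n} (hij : i ≠ j) (hki : k ≠ i) (hkj : k ≠ j) :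
    Pr (x i j) (x j i) (x j k) (x i k) 1 where
  ee := by ring
  pp := (h.sl j k hkj.symm).ax
  rr := (h.sl i k hki.symm).ax
  xp := fun s t => by
    rw [h.cj hij hkj.symm hki.symm, one_mul]
  xr := fun s t => h.cc hij hki.symm hij.symm hki.symm s t
  yr := fun s t => by
    rw [h.cj hij.symm hki.symm hkj.symm, one_mul]
  yp := fun s t => h.cc hij.symm hkj.symm hij hkj.symm s t
  pr := fun s t => h.com j k i k hkj.symm hki.symm hki hkj.symm s t

/-- the rest commutes with rank one -/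
theorem Stn.wc (h : Stn K n x) {i j k l : Fin n} (hij : i ≠ j) (hkl : k ≠ l) (hki : k ≠ i) (hkj : k ≠ j) (hli : l ≠ i) (hlj : l ≠ j) (s t : K) :
    ww (x i j) (x j i) s * x k l t * (ww (x i j) (x j i) s)⁻¹ = x k l t := by
  unfold ww
  rw [← cj3, ← cj3, h.cc hij hkl hkj.symm hli.symm, h.cc hij.symm hkl hki.symm hlj.symm, h.cc hij hkl hkj.symm hli.symm]

theorem Stn.hc (h : Stn K n x) {i j k l : Fin n} (hij : i ≠ j) (hkl : k ≠ l) (hki : k ≠ i) (hkj : k ≠ j) (hli : l ≠ i) (hlj : l ≠ j) (s t : K) :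
    hw (x i j) (x j i) s * x k l t * (hw (x i j) (x j i) s)⁻¹ = x k l t := by
  have h1 : hw (x i j) (x j i) s = ww (x i j) (x j i) s * ww (x i j) (x j i) (-1) := by rw [hw, (h.sl i j hij).wi]
  rw [h1, ← cj3, h.wc hij hkl hki hkj hli hlj, h.wc hij hkl hki hkj hli hlj]

end

end ThKS
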