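import Mathlib
import Pool.Agent.ThKS.Par

/-!
# The closure computation: `Γ = A h(K*) Q ∪ M w(K*) Q`
-/

namespace ThKS

variable {K : Type*} [Field K] {G : Type*} [Group G] {k : ℕ} {z : Fin (k + 2) → Fin (k + 2) → K → G}

def gA (z : Fin (k + 2) → Fin (k + 2) → K → G) : Set G := {g | ∃ (i : Fin (k + 1)) (t : K), g = z i.succ 0 t}
def gC (z : Fin (k + 2) → Fin (k + 2) → K → G) : Set G := {g | ∃ (i : Fin (k + 1)) (t : K), g = z 0 i.succ t}
def gM (z : Fin (k + 2) → Fin (k + 2) → K → G) : Set G := {g | ∃ i j : Fin (k + 1), i ≠ j ∧ ∃ t : K, g = z i.succ j.succ t}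
def gA' (z : Fin (k + 2) → Fin (k + 2) → K → G) : Set G := {g | ∃ (i : Fin k) (t : K), g = z i.succ.succ 0 t}
def gC' (z : Fin (k + 2) → Fin (k + 2) → K → G) : Set G := {g | ∃ (i : Fin k) (t : K), g = z 0 i.succ.succ t}
def gD (z : Fin (k + 2) → Fin (k + 2) → K → G) : Set G := {g | (∃ t : K, g = z 0 1 t) ∨ ∃ (i : Fin k) (t : K), g = z i.succ.succ 1 t}

/-- the subgroup `Q = M C` -/
def sQ (z : Fin (k + 2) → Fin (k + 2) → K → G) : Subgroup G := Subgroup.closure (gM z) ⊔ Subgroup.closure (gC z)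

private theorem s0 (i : Fin (k + 1)) : i.succ ≠ 0 := Fin.succ_ne_zero i
private theorem ss {i j : Fin (k + 1)} (h : i ≠ j) : i.succ ≠ j.succ := fun e => h (Fin.succ_injective _ e)
private theorem c01 : (0 : Fin (k + 2)) ≠ 1 := (Fin.succ_ne_zero (0 : Fin (k + 1))).symm
private theorem s1 (i : Fin k) : i.succ.succ ≠ (1 : Fin (k + 2)) := fun e => Fin.succ_ne_zero i (Fin.succ_injective _ e)

theorem gA_inv (h : Stn K (k + 2) z) : ∀ r ∈ gA z, r⁻¹ ∈ gA z := by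
  rintro _ ⟨i, t, rfl⟩
  exact ⟨i, -t, h.inv (s0 i) t⟩

theorem gC_inv (h : Stn K (k + 2) z) : ∀ r ∈ gC z, r⁻¹ ∈ gC z := by
  rintro _ ⟨i, t, rfl⟩
  exact ⟨i, -t, h.inv (s0 i).symm t⟩

theorem gM_inv (h : Stn K (k + 2) z) : ∀ r ∈ gM z, r⁻¹ ∈ gM z := by
  rintro _ ⟨i, j, hij, t, rfl⟩
  exact ⟨i, j, hij, -t, h.inv (ss hij) t⟩

theorem gA'_inv (h : Stn K (k + 2) z) : ∀ r ∈ gA' z, r⁻¹ ∈ gA' z := by
  rintro _ ⟨i, t, rfl⟩
  exact ⟨i, -t, h.inv (s0 i.succ) t⟩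

omit [Field K] in
theorem mem_A {g : G} (i : Fin (k + 1)) (t : K) (hg : g = z i.succ 0 t) : g ∈ Subgroup.closure (gA z) :=
  Subgroup.subset_closure ⟨i, t, hg⟩

omit [Field K] in
theorem mem_C {g : G} (i : Fin (k + 1)) (t : K) (hg : g = z 0 i.succ t) : g ∈ Subgroup.closure (gC z) :=
  Subgroup.subset_closure ⟨i, t, hg⟩

omit [Field K] in
theorem mem_M {g : G} {i j : Fin (k + 1)} (hij : i ≠ j) (t : K) (hg : g = z i.succ j.succ t) : g ∈ Subgroup.closure (gM z) :=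
  Subgroup.subset_closure ⟨i, j, hij, t, hg⟩

/-- `M` normalises `A` -/
theorem M_A (h : Stn K (k + 2) z) {g : G} (hg : g ∈ Subgroup.closure (gM z)) : ∀ x ∈ Subgroup.closure (gA z),
    g * x * g⁻¹ ∈ Subgroup.closure (gA z) ∧ g⁻¹ * x * g ∈ Subgroup.closure (gA z) := by
  refine nrm (gM_inv h) ?_ hg
  rintro _ ⟨i, j, hij, u, rfl⟩ _ ⟨l, t, rfl⟩
  rcases eq_or_ne j l with rfl | hjl
  · rw [h.cj (ss hij) (s0 j) (s0 i)]
    exact mul_mem (mem_A i _ rfl) (mem_A j _ rfl)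
  · rw [h.cc (ss hij) (s0 l) (ss hjl) (s0 i)]
    exact mem_A l _ rfl

/-- `M` normalises `C` -/
theorem M_C (h : Stn K (k + 2) z) {g : G} (hg : g ∈ Subgroup.closure (gM z)) : ∀ x ∈ Subgroup.closure (gC z),
    g * x * g⁻¹ ∈ Subgroup.closure (gC z) ∧ g⁻¹ * x * g ∈ Subgroup.closure (gC z) := by
  refine nrm (gM_inv h) ?_ hg
  rintro _ ⟨i, j, hij, u, rfl⟩ _ ⟨l, t, rfl⟩
  rcases eq_or_ne i l with rfl | hil
  · rw [h.cj' (s0 i).symm (ss hij) (s0 j).symm]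
    exact mul_mem (mem_C j _ rfl) (mem_C i _ rfl)
  · rw [h.cc (ss hij) (s0 l).symm (s0 j) (ss hil)]
    exact mem_C l _ rfl

/-- `Q = M C` -/
theorem Q_split (h : Stn K (k + 2) z) {q : G} (hq : q ∈ sQ z) :
    ∃ m ∈ Subgroup.closure (gM z), ∃ c ∈ Subgroup.closure (gC z), q = m * c := by
  have h1 : sQ z = Subgroup.closure (gM z ∪ gC z) := by
    rw [sQ, Subgroup.closure_union]
  rw [h1] at hq
  have key : ∀ m ∈ Subgroup.closure (gM z), ∀ c ∈ Subgroup.closure (gC z), ∃ c' ∈ Subgroup.closure (gC z), c * m = m * c' := by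
    intro m hm c hc
    refine ⟨m⁻¹ * c * m, (M_C h hm c hc).2, by group⟩
  have key2 : ∀ m ∈ Subgroup.closure (gM z), ∀ c ∈ Subgroup.closure (gC z), ∃ c' ∈ Subgroup.closure (gC z), m * c = c' * m := by
    intro m hm c hc
    refine ⟨m * c * m⁻¹, (M_C h hm c hc).1, by group⟩
  induction hq using Subgroup.closure_induction with
  | mem r hr =>
    rcases hr with hr | hr
    · exact ⟨r, Subgroup.subset_closure hr, 1, one_mem _, by group⟩
    · exact ⟨1, one_mem _, r, Subgroup.subset_closure hr, by group⟩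
  | one => exact ⟨1, one_mem _, 1, one_mem _, by group⟩
  | mul a b _ _ ha hb =>
    obtain ⟨m, hm, c, hc, rfl⟩ := ha
    obtain ⟨m', hm', c', hc', rfl⟩ := hb
    obtain ⟨c'', hc'', e⟩ := key m' hm' c hc
    refine ⟨m * m', mul_mem hm hm', c'' * c', mul_mem hc'' hc', ?_⟩
    calc m * c * (m' * c') = m * (c * m') * c' := by group
      _ = m * m' * (c'' * c') := by rw [e]; group
  | inv a _ ha =>
    obtain ⟨m, hm, c, hc, rfl⟩ := ha
    obtain ⟨c', hc', e⟩ := key m⁻¹ (inv_mem hm) c⁻¹ (inv_mem hc)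
    exact ⟨m⁻¹, inv_mem hm, c', hc', by rw [mul_inv_rev, e]⟩

omit [Field K] in
theorem M_Q {g : G} (hg : g ∈ Subgroup.closure (gM z)) : g ∈ sQ z := Subgroup.mem_sup_left hg
omit [Field K] in
theorem C_Q {g : G} (hg : g ∈ Subgroup.closure (gC z)) : g ∈ sQ z := Subgroup.mem_sup_right hg

/-- `w(s)` for the indices `0`, `1` -/
def wz (z : Fin (k + 2) → Fin (k + 2) → K → G) (s : K) : G := ww (z 0 1) (z 1 0) s
def hz (z : Fin (k + 2) → Fin (k + 2) → K → G) (s : K) : G := hw (z 0 1) (z 1 0) s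

theorem h_A (h : Stn K (k + 2) z) {s : K} (hs : s ≠ 0) {x : G} (hx : x ∈ Subgroup.closure (gA z)) :
    hz z s * x * (hz z s)⁻¹ ∈ Subgroup.closure (gA z) := by
  refine cj_mem ?_ hx
  rintro _ ⟨i, t, rfl⟩
  refine Fin.cases ?_ (fun j => ?_) i
  · have h1 := (h.sl 0 1 c01).hy hs t
    exact mem_A 0 _ h1
  · have h1 := (h.prc (i := 0) (j := 1) (k := j.succ.succ) c01 (s0 _) (s1 _)).hp (h.sl 0 1 c01) hs t
    exact mem_A j.succ _ h1

theorem h_C (h : Stn K (k + 2) z) {s : K} (hs : s ≠ 0) {x : G} (hx : x ∈ Subgroup.closure (gC z)) :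
    hz z s * x * (hz z s)⁻¹ ∈ Subgroup.closure (gC z) := by
  refine cj_mem ?_ hx
  rintro _ ⟨i, t, rfl⟩
  refine Fin.cases ?_ (fun j => ?_) i
  · have h1 := (h.sl 0 1 c01).hx hs t
    exact mem_C 0 _ h1
  · have h1 := (h.prr (i := 0) (j := 1) (k := j.succ.succ) c01 (s0 _) (s1 _)).hr (h.sl 0 1 c01) hs t
    exact mem_C j.succ _ h1

theorem h_M (h : Stn K (k + 2) z) {s : K} (hs : s ≠ 0) {x : G} (hx : x ∈ Subgroup.closure (gM z)) :
    hz z s * x * (hz z s)⁻¹ ∈ Subgroup.closure (gM z) := by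
  refine cj_mem ?_ hx
  rintro _ ⟨i, l, hil, t, rfl⟩
  rcases Fin.eq_zero_or_eq_succ i with rfl | ⟨i, rfl⟩
  · rcases Fin.eq_zero_or_eq_succ l with rfl | ⟨j, rfl⟩
    · exact absurd rfl hil
    · have h1 := (h.prr (i := 0) (j := 1) (k := j.succ.succ) c01 (s0 _) (s1 _)).hp (h.sl 0 1 c01) hs t
      exact mem_M hil _ h1
  · rcases Fin.eq_zero_or_eq_succ l with rfl | ⟨j, rfl⟩
    · have h1 := (h.prc (i := 0) (j := 1) (k := i.succ.succ) c01 (s0 _) (s1 _)).hr (h.sl 0 1 c01) hs t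
      exact mem_M hil _ h1
    · have h1 := h.hc (i := 0) (j := 1) (k := i.succ.succ) (l := j.succ.succ) c01 (ss hil) (s0 _) (s1 _) (s0 _) (s1 _) s t
      exact mem_M hil _ h1

theorem h_Q (h : Stn K (k + 2) z) {s : K} (hs : s ≠ 0) {x : G} (hx : x ∈ sQ z) :
    hz z s * x * (hz z s)⁻¹ ∈ sQ z := by
  obtain ⟨m, hm, c, hc, rfl⟩ := Q_split h hx
  have h1 : hz z s * (m * c) * (hz z s)⁻¹ = (hz z s * m * (hz z s)⁻¹) * (hz z s * c * (hz z s)⁻¹) := by group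
  rw [h1]
  exact mul_mem (M_Q (h_M h hs hm)) (C_Q (h_C h hs hc))

theorem hz_inv (h : Stn K (k + 2) z) {s : K} (hs : s ≠ 0) : (hz z s)⁻¹ = hz z s⁻¹ := (h.sl 0 1 c01).hi hs

theorem h_Q' (h : Stn K (k + 2) z) {s : K} (hs : s ≠ 0) {x : G} (hx : x ∈ sQ z) :
    (hz z s)⁻¹ * x * hz z s ∈ sQ z := by
  have h1 := h_Q h (inv_ne_zero hs) hx
  rwa [← hz_inv h hs, inv_inv] at h1

theorem h_M' (h : Stn K (k + 2) z) {s : K} (hs : s ≠ 0) {x : G} (hx : x ∈ Subgroup.closure (gM z)) :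
    (hz z s)⁻¹ * x * hz z s ∈ Subgroup.closure (gM z) := by
  have h1 := h_M h (inv_ne_zero hs) hx
  rwa [← hz_inv h hs, inv_inv] at h1

/-- `w(s) A' w(s)⁻¹ ≤ M` -/
theorem w_A' (h : Stn K (k + 2) z) {s : K} (hs : s ≠ 0) {x : G} (hx : x ∈ Subgroup.closure (gA' z)) :
    wz z s * x * (wz z s)⁻¹ ∈ Subgroup.closure (gM z) := by
  refine cj_mem ?_ hx
  rintro _ ⟨j, t, rfl⟩
  have h1 := (h.prc (i := 0) (j := 1) (k := j.succ.succ) c01 (s0 _) (s1 _)).wp (h.sl 0 1 c01) hs t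
  exact mem_M (i := j.succ) (j := 0) (Fin.succ_ne_zero j) _ h1

/-- `w(s)⁻¹ C' w(s) ≤ M` -/
theorem w_C' (h : Stn K (k + 2) z) {s : K} (hs : s ≠ 0) {x : G} (hx : x ∈ Subgroup.closure (gC' z)) :
    (wz z s)⁻¹ * x * wz z s ∈ Subgroup.closure (gM z) := by
  refine cj_mem' ?_ hx
  rintro _ ⟨j, t, rfl⟩
  have h1 := (h.prr (i := 0) (j := 1) (k := j.succ.succ) c01 (s0 _) (s1 _)).wr (h.sl 0 1 c01) (neg_ne_zero.mpr hs) t
  rw [← (h.sl 0 1 c01).wi, inv_inv] at h1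
  exact mem_M (i := 0) (j := j.succ) (Fin.succ_ne_zero j).symm _ h1

/-- `w(s)⁻¹ A w(s) ≤ Q` -/
theorem w_A (h : Stn K (k + 2) z) {s : K} (hs : s ≠ 0) {x : G} (hx : x ∈ Subgroup.closure (gA z)) :
    (wz z s)⁻¹ * x * wz z s ∈ sQ z := by
  refine cj_mem' ?_ hx
  rintro _ ⟨i, t, rfl⟩
  rcases Fin.eq_zero_or_eq_succ i with rfl | ⟨j, rfl⟩
  · have h1 := (h.sl 0 1 c01).co' (neg_ne_zero.mpr hs) t
    rw [← (h.sl 0 1 c01).wi, inv_inv] at h1
    exact C_Q (mem_C 0 _ h1)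
  · have h1 := (h.prc (i := 0) (j := 1) (k := j.succ.succ) c01 (s0 _) (s1 _)).wp (h.sl 0 1 c01) (neg_ne_zero.mpr hs) t
    rw [← (h.sl 0 1 c01).wi, inv_inv] at h1
    exact M_Q (mem_M (i := j.succ) (j := 0) (Fin.succ_ne_zero j) _ h1)

/-- `A'` normalises `D` -/
theorem A'_D (h : Stn K (k + 2) z) {g : G} (hg : g ∈ Subgroup.closure (gA' z)) : ∀ x ∈ Subgroup.closure (gD z),
    g * x * g⁻¹ ∈ Subgroup.closure (gD z) ∧ g⁻¹ * x * g ∈ Subgroup.closure (gD z) := by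
  refine nrm (gA'_inv h) ?_ hg
  rintro _ ⟨j, u, rfl⟩ _ (⟨t, rfl⟩ | ⟨i, t, rfl⟩)
  · rw [h.cj (s0 _) c01 (s1 _)]
    exact mul_mem (Subgroup.subset_closure (Or.inr ⟨j, _, rfl⟩)) (Subgroup.subset_closure (Or.inl ⟨_, rfl⟩))
  · rw [h.cc (s0 _) (s1 _) (s0 _).symm (s1 _)]
    exact Subgroup.subset_closure (Or.inr ⟨i, _, rfl⟩)

omit [Field K] in
theorem D_Q : Subgroup.closure (gD z) ≤ sQ z := by
  rw [Subgroup.closure_le]
  rintro _ (⟨t, rfl⟩ | ⟨i, t, rfl⟩)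
  · exact C_Q (mem_C 0 _ rfl)
  · exact M_Q (mem_M (i := i.succ) (j := 0) (Fin.succ_ne_zero i) _ rfl)

/-- `A = {z_10(v)} A'` -/
theorem A_split (h : Stn K (k + 2) z) {a : G} (ha : a ∈ Subgroup.closure (gA z)) :
    ∃ (v : K), ∃ a' ∈ Subgroup.closure (gA' z), a = z 1 0 v * a' := by
  have hadd : ∀ i : Fin (k + 1), ∀ t u, z i.succ 0 (t + u) = z i.succ 0 t * z i.succ 0 u := fun i => (h.sl _ _ (s0 i)).ax
  have key : ∀ (v : K), ∀ a' ∈ Subgroup.closure (gA' z), a' * z 1 0 v = z 1 0 v * a' := by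
    intro v a' ha'
    induction ha' using Subgroup.closure_induction with
    | mem r hr =>
      obtain ⟨j, t, rfl⟩ := hr
      exact h.com _ _ _ _ (s0 _) (s0 0) (s0 0).symm (s0 _) _ _
    | one => group
    | mul a b _ _ ha hb => rw [mul_assoc, hb, ← mul_assoc, ha, mul_assoc]
    | inv a _ ha => rw [inv_mul_eq_iff_eq_mul, ← mul_assoc, ha]; group
  induction ha using Subgroup.closure_induction with
  | mem r hr =>
    obtain ⟨i, t, rfl⟩ := hr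
    rcases Fin.eq_zero_or_eq_succ i with rfl | ⟨j, rfl⟩
    · exact ⟨t, 1, one_mem _, by rw [mul_one]; rfl⟩
    · refine ⟨0, _, Subgroup.subset_closure ⟨j, t, rfl⟩, ?_⟩
      rw [(h.sl 1 0 (s0 0)).x0, one_mul]
  | one => exact ⟨0, 1, one_mem _, by rw [(h.sl 1 0 (s0 0)).x0, one_mul]⟩
  | mul a b _ _ ha hb =>
    obtain ⟨v, a', ha', rfl⟩ := ha
    obtain ⟨u, b', hb', rfl⟩ := hb
    refine ⟨v + u, a' * b', mul_mem ha' hb', ?_⟩
    rw [(h.sl 1 0 (s0 0)).ax]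
    calc z 1 0 v * a' * (z 1 0 u * b') = z 1 0 v * (a' * z 1 0 u) * b' := by group
      _ = z 1 0 v * z 1 0 u * (a' * b') := by rw [key u a' ha']; group
  | inv a _ ha =>
    obtain ⟨v, a', ha', rfl⟩ := ha
    refine ⟨-v, a'⁻¹, inv_mem ha', ?_⟩
    rw [← (h.sl 1 0 (s0 0)).xi, ← mul_inv_rev, key v a' ha']

/-- `C = {z_01(v)} C'` -/
theorem C_split (h : Stn K (k + 2) z) {a : G} (ha : a ∈ Subgroup.closure (gC z)) :
    ∃ (v : K), ∃ a' ∈ Subgroup.closure (gC' z), a = z 0 1 v * a' := by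
  have key : ∀ (v : K), ∀ a' ∈ Subgroup.closure (gC' z), a' * z 0 1 v = z 0 1 v * a' := by
    intro v a' ha'
    induction ha' using Subgroup.closure_induction with
    | mem r hr =>
      obtain ⟨j, t, rfl⟩ := hr
      exact h.com _ _ _ _ (s0 _).symm c01 (s0 _) c01 _ _
    | one => group
    | mul a b _ _ ha hb => rw [mul_assoc, hb, ← mul_assoc, ha, mul_assoc]
    | inv a _ ha => rw [inv_mul_eq_iff_eq_mul, ← mul_assoc, ha]; group
  induction ha using Subgroup.closure_induction with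
  | mem r hr =>
    obtain ⟨i, t, rfl⟩ := hr
    rcases Fin.eq_zero_or_eq_succ i with rfl | ⟨j, rfl⟩
    · exact ⟨t, 1, one_mem _, by rw [mul_one]; rfl⟩
    · refine ⟨0, _, Subgroup.subset_closure ⟨j, t, rfl⟩, ?_⟩
      rw [(h.sl 0 1 c01).x0, one_mul]
  | one => exact ⟨0, 1, one_mem _, by rw [(h.sl 0 1 c01).x0, one_mul]⟩
  | mul a b _ _ ha hb =>
    obtain ⟨v, a', ha', rfl⟩ := ha
    obtain ⟨u, b', hb', rfl⟩ := hb
    refine ⟨v + u, a' * b', mul_mem ha' hb', ?_⟩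
    rw [(h.sl 0 1 c01).ax]
    calc z 0 1 v * a' * (z 0 1 u * b') = z 0 1 v * (a' * z 0 1 u) * b' := by group
      _ = z 0 1 v * z 0 1 u * (a' * b') := by rw [key u a' ha']; group
  | inv a _ ha =>
    obtain ⟨v, a', ha', rfl⟩ := ha
    refine ⟨-v, a'⁻¹, inv_mem ha', ?_⟩
    rw [← (h.sl 0 1 c01).xi, ← mul_inv_rev, key v a' ha']

/-- the set `A h Q ∪ M w Q` -/
def TT (z : Fin (k + 2) → Fin (k + 2) → K → G) (g : G) : Prop :=
  (∃ a ∈ Subgroup.closure (gA z), ∃ s : K, s ≠ 0 ∧ ∃ q ∈ sQ z, g = a * hz z s * q) ∨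
  (∃ m ∈ Subgroup.closure (gM z), ∃ s : K, s ≠ 0 ∧ ∃ q ∈ sQ z, g = m * wz z s * q)

theorem TT_M (h : Stn K (k + 2) z) {m g : G} (hm : m ∈ Subgroup.closure (gM z)) (hg : TT z g) : TT z (m * g) := by
  rcases hg with ⟨a, ha, s, hs, q, hq, rfl⟩ | ⟨m', hm', s, hs, q, hq, rfl⟩
  · refine Or.inl ⟨m * a * m⁻¹, (M_A h hm a ha).1, s, hs, ((hz z s)⁻¹ * m * hz z s) * q, mul_mem (M_Q (h_M' h hs hm)) hq, by group⟩
  · exact Or.inr ⟨m * m', mul_mem hm hm', s, hs, q, hq, by group⟩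

theorem TT_A (h : Stn K (k + 2) z) {b g : G} (hb : b ∈ Subgroup.closure (gA z)) (hg : TT z g) : TT z (b * g) := by
  rcases hg with ⟨a, ha, s, hs, q, hq, rfl⟩ | ⟨m, hm, s, hs, q, hq, rfl⟩
  · exact Or.inl ⟨b * a, mul_mem hb ha, s, hs, q, hq, by group⟩
  · refine Or.inr ⟨m, hm, s, hs, ((wz z s)⁻¹ * (m⁻¹ * b * m) * wz z s) * q, mul_mem (w_A h hs (M_A h hm b hb).2) hq, by group⟩

theorem TT_01 (h : Stn K (k + 2) z) (t : K) {g : G} (hg : TT z g) : TT z (z 0 1 t * g) := by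
  have hS := h.sl 0 1 c01
  rcases hg with ⟨a, ha, s, hs, q, hq, rfl⟩ | ⟨m, hm, s, hs, q, hq, rfl⟩
  · obtain ⟨v, a', ha', rfl⟩ := A_split h ha
    have haA : a' ∈ Subgroup.closure (gA z) := by
      refine (Subgroup.closure_le _).mpr ?_ ha'
      rintro _ ⟨j, t, rfl⟩
      exact mem_A j.succ _ rfl
    by_cases hr : 1 + t * v = 0
    · have ht : t ≠ 0 := by
        rintro rfl
        rw [zero_mul, add_zero] at hr
        exact one_ne_zero hr
      have hv : v = -t⁻¹ := by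
        field_simp
        linear_combination hr
      have h1 := hS.xy0 t
      rw [← hv] at h1
      have hd := (A'_D h ha' (z 0 1 (-t)) (Subgroup.subset_closure (Or.inl ⟨_, rfl⟩))).2
      have h2 : hz z s = hw (z 0 1) (z 1 0) s := rfl
      have h3 : wz z t * hz z s = wz z (t / s) := hS.wh ht hs
      refine Or.inr ⟨wz z t * a' * (wz z t)⁻¹, w_A' h ht ha', t / s, div_ne_zero ht hs,
        ((hz z s)⁻¹ * (a'⁻¹ * z 0 1 (-t) * a') * hz z s) * q, mul_mem (h_Q' h hs (D_Q hd)) hq, ?_⟩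
      rw [← h3]
      have h4 : z 0 1 t * (z 1 0 v * a' * hz z s * q) = (z 0 1 t * z 1 0 v) * a' * hz z s * q := by group
      rw [h4, h1]
      have h5 : ww (z 0 1) (z 1 0) t = wz z t := rfl
      rw [h5]
      group
    · have h1 := hS.xy hr
      have hd := (A'_D h ha' (z 0 1 (t / (1 + t * v))) (Subgroup.subset_closure (Or.inl ⟨_, rfl⟩))).2
      have h3 : hz z ((1 + t * v) * s) = hz z (1 + t * v) * hz z s := hS.hm _ _ hr hs
      refine Or.inl ⟨z 1 0 (v / (1 + t * v)) * (hz z (1 + t * v) * a' * (hz z (1 + t * v))⁻¹), mul_mem (mem_A 0 _ rfl) (h_A h hr haA),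
        (1 + t * v) * s, mul_ne_zero hr hs,
        ((hz z s)⁻¹ * (a'⁻¹ * z 0 1 (t / (1 + t * v)) * a') * hz z s) * q, mul_mem (h_Q' h hs (D_Q hd)) hq, ?_⟩
      rw [h3]
      have h4 : z 0 1 t * (z 1 0 v * a' * hz z s * q) = (z 0 1 t * z 1 0 v) * a' * hz z s * q := by group
      rw [h4, h1]
      have h5 : hw (z 0 1) (z 1 0) (1 + t * v) = hz z (1 + t * v) := rfl
      rw [h5]
      group
  · have hc := (M_C h hm (z 0 1 t) (mem_C 0 _ rfl)).2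
    obtain ⟨u, c', hc', e⟩ := C_split h hc
    have h1 : z 0 1 t * (m * wz z s * q) = m * ((z 0 1 u * wz z s) * (((wz z s)⁻¹ * c' * wz z s) * q)) := by
      have h2 : z 0 1 t * (m * wz z s * q) = m * (m⁻¹ * z 0 1 t * m) * wz z s * q := by group
      rw [h2, e]; group
    rw [h1]
    have hq' : ((wz z s)⁻¹ * c' * wz z s) * q ∈ sQ z := mul_mem (M_Q (w_C' h hs hc')) hq
    by_cases hu : u = 0
    · subst hu
      rw [hS.x0, one_mul]
      exact Or.inr ⟨m, hm, s, hs, _, hq', by group⟩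
    · apply TT_M h hm
      have h3 := hS.xw hu hs
      have h5 : ww (z 0 1) (z 1 0) s = wz z s := rfl
      have h6 : hw (z 0 1) (z 1 0) (-(u / s)) = hz z (-(u / s)) := rfl
      rw [h5, h6] at h3
      rw [h3]
      refine Or.inl ⟨z 1 0 u⁻¹, mem_A 0 u⁻¹ rfl, -(u / s), neg_ne_zero.mpr (div_ne_zero hu hs), z 0 1 (-(s ^ 2 / u)) * (((wz z s)⁻¹ * c' * wz z s) * q),
        mul_mem (C_Q (mem_C 0 _ rfl)) hq', ?_⟩
      rw [mul_assoc (z 1 0 u⁻¹ * hz z (-(u / s)))]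

/-- all generators -/
def gG (z : Fin (k + 2) → Fin (k + 2) → K → G) : Set G := {g | ∃ i j, i ≠ j ∧ ∃ t : K, g = z i j t}

theorem TT_one : TT z (1 : G) := by
  refine Or.inl ⟨1, one_mem _, 1, one_ne_zero, 1, one_mem _, ?_⟩
  have h1 : hz z 1 = 1 := Sl2.h1
  rw [h1]; group

theorem TT_gen (h : Stn K (k + 2) z) : ∀ r ∈ gG z, ∀ g, TT z g → TT z (r * g) := by
  rintro _ ⟨i, j, hij, t, rfl⟩ g hg
  rcases Fin.eq_zero_or_eq_succ i with rfl | ⟨i, rfl⟩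
  · rcases Fin.eq_zero_or_eq_succ j with rfl | ⟨j, rfl⟩
    · exact absurd rfl hij
    · rcases Fin.eq_zero_or_eq_succ j with rfl | ⟨j, rfl⟩
      · exact TT_01 h t hg
      · have h1 := h.mul 0 1 j.succ.succ c01 (s1 j).symm (s0 _).symm t 1
        rw [mul_one] at h1
        rw [← h1, h.inv c01, h.inv (s1 j).symm, mul_assoc, mul_assoc, mul_assoc]
        have hm : ∀ v : K, z 1 j.succ.succ v ∈ Subgroup.closure (gM z) := fun v =>
          mem_M (i := 0) (j := j.succ) (Fin.succ_ne_zero j).symm v rfl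
        exact TT_01 h _ (TT_M h (hm _) (TT_01 h _ (TT_M h (hm _) hg)))
  · rcases Fin.eq_zero_or_eq_succ j with rfl | ⟨j, rfl⟩
    · exact TT_A h (mem_A i _ rfl) hg
    · exact TT_M h (mem_M (fun e => hij (by rw [e])) t rfl) hg

theorem gG_inv (h : Stn K (k + 2) z) : ∀ r ∈ gG z, r⁻¹ ∈ gG z := by
  rintro _ ⟨i, j, hij, t, rfl⟩
  exact ⟨i, j, hij, -t, h.inv hij t⟩

theorem TT_all (h : Stn K (k + 2) z) {g : G} (hg : g ∈ Subgroup.closure (gG z)) : TT z g := by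
  have h1 : ∀ g ∈ Subgroup.closure (gG z), ∀ x, (TT z x → TT z (g * x)) ∧ (TT z x → TT z (g⁻¹ * x)) := by
    intro g hg
    induction hg using Subgroup.closure_induction with
    | mem r hr => exact fun x => ⟨TT_gen h r hr x, TT_gen h r⁻¹ (gG_inv h r hr) x⟩
    | one => intro x; simp
    | mul a b _ _ ha hb =>
      intro x
      refine ⟨fun hx => ?_, fun hx => ?_⟩
      · rw [mul_assoc]; exact (ha _).1 ((hb _).1 hx)
      · rw [mul_inv_rev, mul_assoc]; exact (hb _).2 ((ha _).2 hx)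
    | inv a _ ha => intro x; rw [inv_inv]; exact ⟨(ha x).2, (ha x).1⟩
  have h2 := (h1 g hg 1).1 TT_one
  rwa [mul_one] at h2

end ThKS
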