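import Mathlib
import Pool.Agent.ThKS.Clo

/-!
# Elementary matrices satisfy the relations
-/

open Matrix

namespace ThKS

variable {K : Type*} [Field K] {n : ℕ}

/-- the elementary matrix `1 + t e_ij` (`i ≠ j`) -/
def EE (K : Type*) [Field K] (n : ℕ) (i j : Fin n) (t : K) : SpecialLinearGroup (Fin n) K :=
  if h : i ≠ j then SpecialLinearGroup.transvection h t else 1

theorem EE_val {i j : Fin n} (h : i ≠ j) (t : K) : (EE K n i j t).1 = 1 + t • (Matrix.single i j 1 : Matrix (Fin n) (Fin n) K) := by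
  rw [EE, dif_pos h, Matrix.smul_single, smul_eq_mul, mul_one]
  rfl

theorem cmul (A B : SpecialLinearGroup (Fin n) K) : (A * B).1 = A.1 * B.1 := rfl

theorem EE_mul {i j : Fin n} (h : i ≠ j) (t u : K) : EE K n i j (t + u) = EE K n i j t * EE K n i j u := by
  rw [EE, EE, EE, dif_pos h, dif_pos h, dif_pos h, SpecialLinearGroup.transvection_add]

theorem EE_inv {i j : Fin n} (h : i ≠ j) (t : K) : (EE K n i j t)⁻¹ = EE K n i j (-t) := by
  rw [EE, EE, dif_pos h, dif_pos h, SpecialLinearGroup.transvection_inv]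

section tab
variable {R : Type*} [Ring R] [Algebra K R] {a b c d : R}

/-- the multiplication table of the matrix units -/
structure Tab (a b c d : R) : Prop where
  aa : a * a = 0
  ab : a * b = c
  ac : a * c = 0
  ad : a * d = a
  ba : b * a = d
  bb : b * b = 0
  bc : b * c = b
  bd : b * d = 0
  ca : c * a = a
  cb : c * b = 0
  cc : c * c = c
  cd : c * d = 0
  da : d * a = 0
  db : d * b = b
  dc : d * c = 0
  dd : d * d = d

theorem Tab.w (T : Tab a b c d) {t : K} (ht : t ≠ 0) :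
    (1 + t • a) * (1 + (-t⁻¹) • b) * (1 + t • a) = 1 + t • a + (-t⁻¹) • b + (-1 : K) • c + (-1 : K) • d := by
  simp only [mul_add, add_mul, mul_one, one_mul, smul_mul_smul_comm, T.aa, T.ab, T.ba, T.ca, smul_zero, add_zero,
    mul_neg, neg_mul, mul_inv_cancel₀ ht, inv_mul_cancel₀ ht]
  module

theorem Tab.h (T : Tab a b c d) (t : K) :
    (1 + t • a + (-t⁻¹) • b + (-1 : K) • c + (-1 : K) • d) * (1 + (-1 : K) • a + (-(-1)⁻¹ : K) • b + (-1 : K) • c + (-1 : K) • d)
      = 1 + (t - 1) • c + (t⁻¹ - 1) • d := by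
  simp only [mul_add, add_mul, mul_one, one_mul, smul_mul_smul_comm, T.aa, T.ab, T.ac, T.ad, T.ba, T.bb, T.bc, T.bd,
    T.ca, T.cb, T.cc, T.cd, T.da, T.db, T.dc, T.dd, smul_zero, add_zero, inv_neg, inv_one, neg_neg]
  module

theorem Tab.hm (T : Tab a b c d) (t u : K) :
    (1 + (t - 1) • c + (t⁻¹ - 1) • d) * (1 + (u - 1) • c + (u⁻¹ - 1) • d) = 1 + (t * u - 1) • c + ((t * u)⁻¹ - 1) • d := by
  simp only [mul_add, add_mul, mul_one, one_mul, smul_mul_smul_comm, T.cc, T.cd, T.dc, T.dd, smul_zero, add_zero, mul_inv]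
  module

theorem Tab.co (T : Tab a b c d) {t : K} (ht : t ≠ 0) (u : K) :
    (1 + t • a + (-t⁻¹) • b + (-1 : K) • c + (-1 : K) • d) * (1 + u • a)
      = (1 + (-(t⁻¹ ^ 2 * u)) • b) * (1 + t • a + (-t⁻¹) • b + (-1 : K) • c + (-1 : K) • d) := by
  have h1 : t⁻¹ ^ 2 * u * t = t⁻¹ * u := by field_simp
  simp only [mul_add, add_mul, mul_one, one_mul, smul_mul_smul_comm, T.aa, T.ba, T.bb, T.bc, T.bd,
    T.ca, T.da, smul_zero, add_zero, neg_mul, h1]
  module

end tab

theorem tab {i j : Fin n} (h : i ≠ j) :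
    Tab (Matrix.single i j 1 : Matrix (Fin n) (Fin n) K) (Matrix.single j i 1) (Matrix.single i i 1) (Matrix.single j j 1) := by
  constructor <;> simp [h, h.symm]

theorem ww_val {i j : Fin n} (h : i ≠ j) {t : K} (ht : t ≠ 0) : (ww (EE K n i j) (EE K n j i) t).1 =
    1 + t • (Matrix.single i j 1 : Matrix (Fin n) (Fin n) K) + (-t⁻¹) • Matrix.single j i 1 + (-1 : K) • Matrix.single i i 1
      + (-1 : K) • Matrix.single j j 1 := by
  rw [← (tab h).w ht, ← EE_val h, ← EE_val h.symm]
  rfl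

theorem hw_val {i j : Fin n} (h : i ≠ j) {t : K} (ht : t ≠ 0) : (hw (EE K n i j) (EE K n j i) t).1 =
    1 + (t - 1) • (Matrix.single i i 1 : Matrix (Fin n) (Fin n) K) + (t⁻¹ - 1) • Matrix.single j j 1 := by
  have hm1 : (-1 : K) ≠ 0 := neg_ne_zero.mpr one_ne_zero
  have h1 : (ww (EE K n i j) (EE K n j i) (1 : K))⁻¹ = ww (EE K n i j) (EE K n j i) (-1) := by
    unfold ww
    rw [_root_.mul_inv_rev, _root_.mul_inv_rev, EE_inv h, EE_inv h.symm, mul_assoc, inv_neg]
  rw [← (tab h).h t, hw, h1]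
  refine (cmul _ _).trans ?_
  rw [ww_val h ht, ww_val h hm1]

theorem sl_EE {i j : Fin n} (h : i ≠ j) : Sl2 (EE K n i j) (EE K n j i) where
  ax := EE_mul h
  ay := EE_mul h.symm
  co := fun t ht u => by
    rw [mul_inv_eq_iff_eq_mul]
    apply Subtype.ext
    refine (cmul _ _).trans (Eq.trans ?_ (cmul _ _).symm)
    rw [ww_val h ht, EE_val h, EE_val h.symm]
    exact (tab h).co ht u
  hm := fun t u ht hu => by
    apply Subtype.ext
    refine Eq.trans ?_ (cmul _ _).symm
    rw [hw_val h ht, hw_val h hu, hw_val h (mul_ne_zero ht hu), (tab h).hm t u]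

theorem stn_EE (K : Type*) [Field K] (n : ℕ) : Stn K n (EE K n) where
  sl := fun i j h => sl_EE h
  mul := fun i j k hij hjk hik t u => by
    rw [mul_inv_eq_iff_eq_mul, mul_inv_eq_iff_eq_mul]
    apply Subtype.ext
    refine (cmul _ _).trans (Eq.trans ?_ ((cmul _ _).trans (congrArg (· * _) (cmul _ _))).symm)
    simp only [EE_val hij, EE_val hjk, EE_val hik, mul_add, add_mul, mul_one, one_mul, smul_mul_smul_comm,
      Matrix.single_mul_single_same, Matrix.single_mul_single_of_ne _ _ _ _ hjk.symm, Matrix.single_mul_single_of_ne _ _ _ _ hik.symm,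
      smul_zero, add_zero]
    module
  com := fun i j k l hij hkl hjk hil t u => by
    apply Subtype.ext
    refine (cmul _ _).trans (Eq.trans ?_ (cmul _ _).symm)
    simp only [EE_val hij, EE_val hkl, mul_add, add_mul, mul_one, one_mul, smul_mul_smul_comm,
      Matrix.single_mul_single_of_ne _ _ _ _ hjk, Matrix.single_mul_single_of_ne _ _ _ _ hil.symm, smul_zero, add_zero]
    module

theorem Sl2.prod {G H : Type*} [Group G] [Group H] {X Y : K → G} {X' Y' : K → H} (h : Sl2 X Y) (h' : Sl2 X' Y') :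
    Sl2 (fun t => (X t, X' t)) (fun t => (Y t, Y' t)) where
  ax := fun t u => Prod.ext (h.ax t u) (h'.ax t u)
  ay := fun t u => Prod.ext (h.ay t u) (h'.ay t u)
  co := fun t ht u => Prod.ext (h.co t ht u) (h'.co t ht u)
  hm := fun t u ht hu => Prod.ext (h.hm t u ht hu) (h'.hm t u ht hu)

theorem Stn.prod {G H : Type*} [Group G] [Group H] {x : Fin n → Fin n → K → G} {y : Fin n → Fin n → K → H} (h : Stn K n x) (h' : Stn K n y) :
    Stn K n (fun i j t => (x i j t, y i j t)) where
  sl := fun i j hij => (h.sl i j hij).prod (h'.sl i j hij)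
  mul := fun i j k h1 h2 h3 t u => Prod.ext (h.mul i j k h1 h2 h3 t u) (h'.mul i j k h1 h2 h3 t u)
  com := fun i j k l h1 h2 h3 h4 t u => Prod.ext (h.com i j k l h1 h2 h3 h4 t u) (h'.com i j k l h1 h2 h3 h4 t u)

/-- restriction to the indices `≥ 1` -/
theorem Stn.res {G : Type*} [Group G] {x : Fin (n + 1) → Fin (n + 1) → K → G} (h : Stn K (n + 1) x) :
    Stn K n (fun i j t => x i.succ j.succ t) where
  sl := fun _ _ hij => h.sl _ _ (fun e => hij (Fin.succ_injective _ e))
  mul := fun _ _ _ h1 h2 h3 t u => h.mul _ _ _ (fun e => h1 (Fin.succ_injective _ e)) (fun e => h2 (Fin.succ_injective _ e))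
    (fun e => h3 (Fin.succ_injective _ e)) t u
  com := fun _ _ _ _ h1 h2 h3 h4 t u => h.com _ _ _ _ (fun e => h1 (Fin.succ_injective _ e)) (fun e => h2 (Fin.succ_injective _ e))
    (fun e => h3 (Fin.succ_injective _ e)) (fun e => h4 (Fin.succ_injective _ e)) t u

/-- the block embedding -/
def io (M : SpecialLinearGroup (Fin n) K) : SpecialLinearGroup (Fin (n + 1)) K :=
  ⟨Matrix.of fun i j => Fin.cases (Fin.cases 1 (fun _ => 0) j) (fun i' => Fin.cases 0 (fun j' => M.1 i' j') j) i, by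
    rw [Matrix.det_succ_row_zero, Fin.sum_univ_succ]
    have h1 : ∀ i : Fin n, (Matrix.of fun i j => Fin.cases (Fin.cases 1 (fun _ => 0) j) (fun i' => Fin.cases 0 (fun j' => M.1 i' j') j) i :
      Matrix (Fin (n + 1)) (Fin (n + 1)) K) 0 i.succ = 0 := fun i => rfl
    simp only [h1, mul_zero, zero_mul, Finset.sum_const_zero, add_zero]
    have h2 : (Matrix.of fun i j => Fin.cases (Fin.cases 1 (fun _ => 0) j) (fun i' => Fin.cases 0 (fun j' => M.1 i' j') j) i :
      Matrix (Fin (n + 1)) (Fin (n + 1)) K).submatrix Fin.succ (Fin.succAbove 0) = M.1 := by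
      ext i j
      rw [Matrix.submatrix_apply, Fin.succAbove_zero]
      rfl
    rw [h2, M.2]
    simp⟩

theorem io_00 (M : SpecialLinearGroup (Fin n) K) : (io M).1 0 0 = 1 := rfl
theorem io_0s (M : SpecialLinearGroup (Fin n) K) (j : Fin n) : (io M).1 0 j.succ = 0 := rfl
theorem io_s0 (M : SpecialLinearGroup (Fin n) K) (i : Fin n) : (io M).1 i.succ 0 = 0 := rfl
theorem io_ss (M : SpecialLinearGroup (Fin n) K) (i j : Fin n) : (io M).1 i.succ j.succ = M.1 i j := rfl

/-- the block embedding as a homomorphism -/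
def ioh (K : Type*) [Field K] (n : ℕ) : SpecialLinearGroup (Fin n) K →* SpecialLinearGroup (Fin (n + 1)) K where
  toFun := io
  map_one' := by
    apply Subtype.ext
    ext i j
    refine Eq.trans ?_ (show (1 : Matrix (Fin (n + 1)) (Fin (n + 1)) K) i j = (1 : SpecialLinearGroup (Fin (n + 1)) K).1 i j from rfl)
    rcases Fin.eq_zero_or_eq_succ i with rfl | ⟨i, rfl⟩ <;> rcases Fin.eq_zero_or_eq_succ j with rfl | ⟨j, rfl⟩
    · rw [Matrix.one_apply_eq]; exact io_00 _
    · rw [Matrix.one_apply_ne (Fin.succ_ne_zero j).symm]; exact io_0s _ _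
    · rw [Matrix.one_apply_ne (Fin.succ_ne_zero i)]; exact io_s0 _ _
    · refine (io_ss _ i j).trans ?_
      refine (show (1 : SpecialLinearGroup (Fin n) K).1 i j = (1 : Matrix (Fin n) (Fin n) K) i j from rfl).trans ?_
      rw [Matrix.one_apply, Matrix.one_apply]
      simp
  map_mul' := fun M N => by
    apply Subtype.ext
    ext i j
    have h1 : (io M * io N).1 i j = (io M).1 i 0 * (io N).1 0 j + ∑ l : Fin n, (io M).1 i l.succ * (io N).1 l.succ j := by
      refine (show (io M * io N).1 i j = ((io M).1 * (io N).1) i j from rfl).trans ?_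
      rw [Matrix.mul_apply, Fin.sum_univ_succ]
    refine Eq.trans ?_ h1.symm
    rcases Fin.eq_zero_or_eq_succ i with rfl | ⟨i, rfl⟩ <;> rcases Fin.eq_zero_or_eq_succ j with rfl | ⟨j, rfl⟩
    · simp only [io_00, io_0s, zero_mul, Finset.sum_const_zero, mul_one, add_zero]
    · simp only [io_0s, zero_mul, mul_zero, Finset.sum_const_zero, add_zero]
    · simp only [io_s0, zero_mul, mul_zero, Finset.sum_const_zero, add_zero]
    · refine (io_ss _ i j).trans ?_
      rw [io_s0, zero_mul, zero_add]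
      refine (show (M * N).1 i j = (M.1 * N.1) i j from rfl).trans ?_
      rw [Matrix.mul_apply]
      simp only [io_ss]

theorem ioh_inj : Function.Injective (ioh K n) := by
  intro M N h
  apply Subtype.ext
  ext i j
  exact congrFun (congrFun (congrArg Subtype.val h) i.succ) j.succ

theorem ioh_EE {i j : Fin n} (h : i ≠ j) (t : K) : ioh K n (EE K n i j t) = EE K (n + 1) i.succ j.succ t := by
  have hs : i.succ ≠ j.succ := fun e => h (Fin.succ_injective _ e)
  apply Subtype.ext
  ext a b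
  have h0 : (ioh K n (EE K n i j t)).1 = (io (EE K n i j t)).1 := rfl
  rw [EE_val hs, h0]
  rcases Fin.eq_zero_or_eq_succ a with rfl | ⟨a, rfl⟩ <;> rcases Fin.eq_zero_or_eq_succ b with rfl | ⟨b, rfl⟩
  · rw [io_00]; simp
  · rw [io_0s]; simp [(Fin.succ_ne_zero _).symm]
  · rw [io_s0]; simp
  · rw [io_ss, EE_val h]; simp [Matrix.single_apply, Matrix.one_apply]

end ThKS
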