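import Mathlib
import Pool.Agent.ThKS.Mat

/-!
# Steinberg's presentation of `SL_n(K)`
-/

open Matrix

namespace ThKS

variable {K : Type*} [Field K] {n : ℕ} {G : Type*} [Group G]

private theorem add0 {x : K → G} (h : ∀ t u, x (t + u) = x t * x u) : x 0 = 1 := by
  have h1 := h 0 0
  rw [add_zero] at h1
  exact (mul_eq_left.mp h1.symm)

/-- the homomorphism of a root group -/
private def ff {p q : Fin n} (hpq : p ≠ q) {y : K → G} (hy : ∀ t u, y (t + u) = y t * y u) :
    Multiplicative K →* SpecialLinearGroup (Fin n) K × G where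
  toFun := fun t => (EE K n p q t.toAdd, y t.toAdd)
  map_one' := Prod.ext (add0 (EE_mul hpq)) (add0 hy)
  map_mul' := fun _ _ => Prod.ext (EE_mul hpq _ _) (hy _ _)

/-- the commutative subgroups `A` and `C` are determined by their matrices -/
theorem cinj {m : ℕ} {p q : Fin m → Fin n} (hpq : ∀ i j, q i ≠ p j) (hin : ∀ i j, i ≠ j → ¬ (p i = p j ∧ q i = q j))
    {y : Fin m → K → G} (hy : ∀ i t u, y i (t + u) = y i t * y i u) (hc : ∀ i j t u, y i t * y j u = y j u * y i t)
    {g : SpecialLinearGroup (Fin n) K × G}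
    (hg : g ∈ Subgroup.closure {g : SpecialLinearGroup (Fin n) K × G | ∃ (i : Fin m) (t : K), g = (EE K n (p i) (q i) t, y i t)})
    (h1 : g.1 = 1) : g = 1 := by
  have hcm : Pairwise fun i j => ∀ a b, Commute (ff (hpq i i).symm (hy i) a) (ff (hpq j j).symm (hy j) b) := by
    intro i j _ a b
    exact Prod.ext ((stn_EE K n).com _ _ _ _ (hpq i i).symm (hpq j j).symm (hpq i j) (hpq j i).symm _ _) (hc i j _ _)
  let φ : (Fin m → Multiplicative K) →* SpecialLinearGroup (Fin n) K × G :=
    MonoidHom.noncommPiCoprod (fun i => ff (hpq i i).symm (hy i)) hcm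
  have hφ : ∀ i t, φ (Pi.mulSingle i t) = ff (hpq i i).symm (hy i) t := fun i t => MonoidHom.noncommPiCoprod_mulSingle _ _ _
  have hr : Subgroup.closure {g : SpecialLinearGroup (Fin n) K × G | ∃ (i : Fin m) (t : K), g = (EE K n (p i) (q i) t, y i t)} ≤ φ.range := by
    rw [Subgroup.closure_le]
    rintro _ ⟨i, t, rfl⟩
    exact ⟨Pi.mulSingle i (Multiplicative.ofAdd t), hφ i _⟩
  obtain ⟨v, rfl⟩ := hr hg
  have key : ∀ s : Finset (Fin m), (φ (∏ i ∈ s, Pi.mulSingle i (v i))).1.1 =
      1 + ∑ i ∈ s, (v i).toAdd • (Matrix.single (p i) (q i) 1 : Matrix (Fin n) (Fin n) K) := by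
    intro s
    induction s using Finset.induction_on with
    | empty =>
      rw [Finset.prod_empty, map_one, Finset.sum_empty, add_zero]
      rfl
    | insert a s ha ih =>
      rw [Finset.prod_insert ha, map_mul, Finset.sum_insert ha]
      refine (cmul _ _).trans ?_
      rw [ih, hφ]
      have h2 : (ff (hpq a a).symm (hy a) (v a)).1.1 = 1 + (v a).toAdd • (Matrix.single (p a) (q a) 1 : Matrix (Fin n) (Fin n) K) :=
        EE_val (hpq a a).symm _
      rw [h2, mul_add, mul_one, add_mul, one_mul, Finset.mul_sum]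
      have h3 : ∀ i ∈ s, (v a).toAdd • (Matrix.single (p a) (q a) 1 : Matrix (Fin n) (Fin n) K) * (v i).toAdd • Matrix.single (p i) (q i) 1 = 0 := by
        intro i _
        rw [smul_mul_smul_comm, Matrix.single_mul_single_of_ne _ _ _ _ (hpq a i), smul_zero]
      rw [Finset.sum_congr rfl h3, Finset.sum_const_zero, add_zero, add_assoc]
  have h2 := key Finset.univ
  rw [Finset.univ_prod_mulSingle] at h2
  have h3 : ∑ i, (v i).toAdd • (Matrix.single (p i) (q i) 1 : Matrix (Fin n) (Fin n) K) = 0 := by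
    have h4 : (φ v).1.1 = 1 := by rw [h1]; rfl
    rw [h4] at h2
    exact left_eq_add.mp h2
  have h5 : v = 1 := by
    funext i
    have h6 := congrFun (congrFun h3 (p i)) (q i)
    rw [Matrix.sum_apply, Finset.sum_eq_single i] at h6
    · rw [Matrix.smul_apply, Matrix.single_apply_same, smul_eq_mul, mul_one] at h6
      exact h6
    · intro j _ hj
      rw [Matrix.smul_apply, Matrix.single_apply, if_neg (hin j i hj), smul_zero]
    · intro h; exact absurd (Finset.mem_univ i) h
  rw [h5, map_one]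

private theorem fixl {v : Fin n → K} {S : Set (SpecialLinearGroup (Fin n) K × G)} (hS : ∀ g ∈ S, g.1.1 *ᵥ v = v) :
    ∀ g ∈ Subgroup.closure S, g.1.1 *ᵥ v = v := by
  intro g hg
  induction hg using Subgroup.closure_induction with
  | mem r hr => exact hS r hr
  | one => exact Matrix.one_mulVec v
  | mul a b _ _ ha hb =>
    have h1 : (a * b).1.1 = a.1.1 * b.1.1 := rfl
    rw [h1, ← Matrix.mulVec_mulVec, hb, ha]
  | inv a _ ha =>
    have h1 : (a⁻¹).1.1 * a.1.1 = 1 := by
      refine (cmul a.1⁻¹ a.1).symm.trans ?_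
      rw [inv_mul_cancel]; rfl
    calc (a⁻¹).1.1 *ᵥ v = (a⁻¹).1.1 *ᵥ (a.1.1 *ᵥ v) := by rw [ha]
      _ = v := by rw [Matrix.mulVec_mulVec, h1, Matrix.one_mulVec]

private theorem fixr {v : Fin n → K} {S : Set (SpecialLinearGroup (Fin n) K × G)} (hS : ∀ g ∈ S, v ᵥ* g.1.1 = v) :
    ∀ g ∈ Subgroup.closure S, v ᵥ* g.1.1 = v := by
  intro g hg
  induction hg using Subgroup.closure_induction with
  | mem r hr => exact hS r hr
  | one => exact Matrix.vecMul_one v
  | mul a b _ _ ha hb =>
    have h1 : (a * b).1.1 = a.1.1 * b.1.1 := rfl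
    rw [h1, ← Matrix.vecMul_vecMul, ha, hb]
  | inv a _ ha =>
    have h1 : a.1.1 * (a⁻¹).1.1 = 1 := by
      refine (cmul a.1 a.1⁻¹).symm.trans ?_
      rw [mul_inv_cancel]; rfl
    calc v ᵥ* (a⁻¹).1.1 = (v ᵥ* a.1.1) ᵥ* (a⁻¹).1.1 := by rw [ha]
      _ = v := by rw [Matrix.vecMul_vecMul, h1, Matrix.vecMul_one]

private theorem EE_col {i j l : Fin n} (h : i ≠ j) (hl : l ≠ j) (t : K) : (EE K n i j t).1 *ᵥ (Pi.single l 1 : Fin n → K) = Pi.single l 1 := by
  rw [EE_val h, Matrix.add_mulVec, Matrix.one_mulVec, Matrix.smul_mulVec]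
  have h1 : (Matrix.single i j 1 : Matrix (Fin n) (Fin n) K) *ᵥ (Pi.single l 1 : Fin n → K) = 0 := by
    ext a
    rw [Matrix.mulVec_single_one]
    simp [hl.symm]
  rw [h1, smul_zero, add_zero]

private theorem EE_row {i j l : Fin n} (h : i ≠ j) (hl : l ≠ i) (t : K) : (Pi.single l 1 : Fin n → K) ᵥ* (EE K n i j t).1 = Pi.single l 1 := by
  rw [EE_val h, Matrix.vecMul_add, Matrix.vecMul_one, Matrix.vecMul_smul]
  have h1 : (Pi.single l 1 : Fin n → K) ᵥ* (Matrix.single i j 1 : Matrix (Fin n) (Fin n) K) = 0 := by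
    ext a
    rw [Matrix.single_one_vecMul]
    simp [hl.symm]
  rw [h1, smul_zero, add_zero]

private theorem s0 (i : Fin n) : i.succ ≠ 0 := Fin.succ_ne_zero i
private theorem ss {i j : Fin n} (h : i ≠ j) : i.succ ≠ j.succ := fun e => h (Fin.succ_injective _ e)

/-- the kernel of the group generated by `(1 + t e_ij, x_ij(t))` -/
theorem inj0 : ∀ (n : ℕ) (x : Fin n → Fin n → K → G), Stn K n x → ∀ g ∈ Subgroup.closure
    {g : SpecialLinearGroup (Fin n) K × G | ∃ i j, i ≠ j ∧ ∃ t : K, g = (EE K n i j t, x i j t)}, g.1 = 1 → g = 1 := by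
  intro n
  induction n with
  | zero =>
    intro x hx g hg _
    have h1 : {g : SpecialLinearGroup (Fin 0) K × G | ∃ i j, i ≠ j ∧ ∃ t : K, g = (EE K 0 i j t, x i j t)} = ∅ := by
      ext g
      simp only [Set.mem_setOf_eq, Set.mem_empty_iff_false, iff_false]
      rintro ⟨i, _⟩
      exact i.elim0
    rw [h1, Subgroup.closure_empty, Subgroup.mem_bot] at hg
    exact hg
  | succ n ih =>
    rcases n with _ | k
    · intro x hx g hg _
      have h1 : {g : SpecialLinearGroup (Fin (0 + 1)) K × G | ∃ i j, i ≠ j ∧ ∃ t : K, g = (EE K (0 + 1) i j t, x i j t)} = ∅ := by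
        ext g
        simp only [Set.mem_setOf_eq, Set.mem_empty_iff_false, iff_false]
        rintro ⟨i, j, hij, _⟩
        exact hij (Fin.ext (by have h2 := i.2; have h3 := j.2; omega))
      rw [h1, Subgroup.closure_empty, Subgroup.mem_bot] at hg
      exact hg
    · intro x hx g hg hg1
      let z : Fin (k + 2) → Fin (k + 2) → K → SpecialLinearGroup (Fin (k + 2)) K × G := fun i j t => (EE K (k + 2) i j t, x i j t)
      have h : Stn K (k + 2) z := (stn_EE K (k + 2)).prod hx
      have hT : TT z g := TT_all h hg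
      -- actions
      have hMc : ∀ m ∈ Subgroup.closure (gM z), m.1.1 *ᵥ (Pi.single 0 1 : Fin (k + 2) → K) = Pi.single 0 1 := by
        apply fixl
        rintro _ ⟨i, j, hij, t, rfl⟩
        exact EE_col (ss hij) (s0 j).symm t
      have hMr : ∀ m ∈ Subgroup.closure (gM z), (Pi.single 0 1 : Fin (k + 2) → K) ᵥ* m.1.1 = Pi.single 0 1 := by
        apply fixr
        rintro _ ⟨i, j, hij, t, rfl⟩
        exact EE_row (ss hij) (s0 i).symm t
      have hCc : ∀ m ∈ Subgroup.closure (gC z), m.1.1 *ᵥ (Pi.single 0 1 : Fin (k + 2) → K) = Pi.single 0 1 := by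
        apply fixl
        rintro _ ⟨j, t, rfl⟩
        exact EE_col (s0 j).symm (s0 j).symm t
      have hCr : ∀ l : Fin (k + 2), l ≠ 0 → ∀ m ∈ Subgroup.closure (gC z), (Pi.single l 1 : Fin (k + 2) → K) ᵥ* m.1.1 = Pi.single l 1 := by
        intro l hl
        apply fixr
        rintro _ ⟨j, t, rfl⟩
        exact EE_row (s0 j).symm hl t
      have hAr : ∀ m ∈ Subgroup.closure (gA z), (Pi.single 0 1 : Fin (k + 2) → K) ᵥ* m.1.1 = Pi.single 0 1 := by
        apply fixr
        rintro _ ⟨j, t, rfl⟩
        exact EE_row (s0 j) (s0 j).symm t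
      have hAc : ∀ l : Fin (k + 2), l ≠ 0 → ∀ m ∈ Subgroup.closure (gA z), m.1.1 *ᵥ (Pi.single l 1 : Fin (k + 2) → K) = Pi.single l 1 := by
        intro l hl
        apply fixl
        rintro _ ⟨j, t, rfl⟩
        exact EE_col (s0 j) hl t
      have c01 : (0 : Fin (k + 2)) ≠ 1 := (Fin.succ_ne_zero (0 : Fin (k + 1))).symm
      have hval : ∀ (A : Matrix (Fin (k + 2)) (Fin (k + 2)) K) (v : Fin (k + 2) → K), (Pi.single 0 1 : Fin (k + 2) → K) ᵥ* A = Pi.single 0 1 →
          (A *ᵥ v) 0 = v 0 := by
        intro A v hA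
        have h2 : (A *ᵥ v) 0 = (Pi.single 0 1 : Fin (k + 2) → K) ⬝ᵥ (A *ᵥ v) := by rw [single_one_dotProduct]
        rw [h2, Matrix.dotProduct_mulVec, hA, single_one_dotProduct]
      have hg1' : g.1.1 = 1 := by rw [hg1]; rfl
      rcases hT with ⟨a, ha, s, hs, q, hq, e⟩ | ⟨m, hm, s, hs, q, hq, e⟩
      · obtain ⟨m, hm, c, hc, rfl⟩ := Q_split h hq
        have e1 : g.1.1 = a.1.1 * (hz z s).1.1 * (m.1.1 * c.1.1) := by rw [e]; rfl
        have hh0 : (hz z s).1.1 *ᵥ (Pi.single 0 1 : Fin (k + 2) → K) = s • Pi.single 0 1 := by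
          have h2 : (hz z s).1.1 = 1 + (s - 1) • (Matrix.single 0 0 1 : Matrix (Fin (k + 2)) (Fin (k + 2)) K) + (s⁻¹ - 1) • Matrix.single 1 1 1 :=
            hw_val c01 hs
          rw [h2, Matrix.add_mulVec, Matrix.add_mulVec, Matrix.one_mulVec, Matrix.smul_mulVec, Matrix.smul_mulVec, Matrix.mulVec_single_one,
            Matrix.mulVec_single_one]
          have h3 : (Matrix.single 0 0 1 : Matrix (Fin (k + 2)) (Fin (k + 2)) K).col 0 = Pi.single 0 1 := by
            ext i
            by_cases hi : i = 0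
            · subst hi; simp
            · simp [hi, Ne.symm hi]
          have h4 : (Matrix.single 1 1 1 : Matrix (Fin (k + 2)) (Fin (k + 2)) K).col 0 = 0 := by
            ext i
            simp
          rw [h3, h4, smul_zero, add_zero, sub_smul, one_smul]
          abel
        have e2 : a.1.1 *ᵥ (s • Pi.single 0 1 : Fin (k + 2) → K) = Pi.single 0 1 := by
          have h2 : g.1.1 *ᵥ (Pi.single 0 1 : Fin (k + 2) → K) = Pi.single 0 1 := by rw [hg1', Matrix.one_mulVec]
          rw [e1, ← Matrix.mulVec_mulVec, ← Matrix.mulVec_mulVec, ← Matrix.mulVec_mulVec, hCc c hc, hMc m hm, hh0] at h2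
          exact h2
        have hs1 : s = 1 := by
          have h2 := hval a.1.1 (s • Pi.single 0 1) (hAr a ha)
          rw [e2] at h2
          simpa using h2.symm
        subst hs1
        rw [one_smul] at e2
        have ha1 : a.1 = 1 := by
          apply Subtype.ext
          ext i j
          have h2 : a.1.1 *ᵥ (Pi.single j 1 : Fin (k + 2) → K) = Pi.single j 1 := by
            by_cases hj : j = 0
            · rw [hj]; exact e2
            · exact hAc j hj a ha
          have h3 := congrFun h2 i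
          rw [Matrix.mulVec_single_one] at h3
          refine Eq.trans h3 ?_
          refine Eq.trans ?_ (show (1 : Matrix (Fin (k + 2)) (Fin (k + 2)) K) i j = (1 : SpecialLinearGroup (Fin (k + 2)) K).1 i j from rfl)
          rw [Matrix.one_apply, Pi.single_apply]
        have ha2 : a = 1 := by
          refine cinj (m := k + 1) (p := fun i => i.succ) (q := fun _ => 0) (y := fun i => x i.succ 0) (fun i j => (s0 j).symm) ?_ ?_ ?_ ha ha1
          · intro i j hij hh; exact hij (Fin.succ_injective _ hh.1)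
          · intro i; exact (hx.sl _ _ (s0 i)).ax
          · intro i j t u; exact hx.com _ _ _ _ (s0 i) (s0 j) (s0 j).symm (s0 i) t u
        have hh1 : hz z 1 = 1 := Sl2.h1
        rw [ha2, hh1, one_mul, one_mul] at e
        have hc1 : c.1 = 1 := by
          have h0 : (Pi.single 0 1 : Fin (k + 2) → K) ᵥ* c.1.1 = Pi.single 0 1 := by
            have h2 : (Pi.single 0 1 : Fin (k + 2) → K) ᵥ* g.1.1 = Pi.single 0 1 := by rw [hg1', Matrix.vecMul_one]
            have h3 : g.1.1 = m.1.1 * c.1.1 := by rw [e]; rfl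
            rw [h3, ← Matrix.vecMul_vecMul, hMr m hm] at h2
            exact h2
          apply Subtype.ext
          ext i j
          have h2 : (Pi.single i 1 : Fin (k + 2) → K) ᵥ* c.1.1 = Pi.single i 1 := by
            by_cases hi : i = 0
            · rw [hi]; exact h0
            · exact hCr i hi c hc
          have h3 := congrFun h2 j
          rw [Matrix.single_one_vecMul] at h3
          refine Eq.trans h3 ?_
          refine Eq.trans ?_ (show (1 : Matrix (Fin (k + 2)) (Fin (k + 2)) K) i j = (1 : SpecialLinearGroup (Fin (k + 2)) K).1 i j from rfl)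
          rw [Matrix.one_apply, Pi.single_apply]
          simp only [eq_comm]
        have hc2 : c = 1 := by
          refine cinj (m := k + 1) (p := fun _ => 0) (q := fun i => i.succ) (y := fun i => x 0 i.succ) (fun i j => s0 i) ?_ ?_ ?_ hc hc1
          · intro i j hij hh; exact hij (Fin.succ_injective _ hh.2)
          · intro i; exact (hx.sl _ _ (s0 i).symm).ax
          · intro i j t u; exact hx.com _ _ _ _ (s0 i).symm (s0 j).symm (s0 i) (s0 j).symm t u
        rw [hc2, mul_one] at e
        subst e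
        -- the element lies in `M`
        have hmap : Subgroup.closure (gM z) = (Subgroup.closure {g : SpecialLinearGroup (Fin (k + 1)) K × G |
            ∃ i j, i ≠ j ∧ ∃ t : K, g = (EE K (k + 1) i j t, x i.succ j.succ t)}).map
              (MonoidHom.prodMap (ioh K (k + 1)) (MonoidHom.id G)) := by
          rw [MonoidHom.map_closure]
          congr 1
          ext w
          constructor
          · rintro ⟨i, j, hij, t, rfl⟩
            exact ⟨(EE K (k + 1) i j t, x i.succ j.succ t), ⟨i, j, hij, t, rfl⟩, Prod.ext (ioh_EE hij t) rfl⟩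
          · rintro ⟨_, ⟨i, j, hij, t, rfl⟩, rfl⟩
            exact ⟨i, j, hij, t, Prod.ext (ioh_EE hij t) rfl⟩
        rw [hmap] at hm
        obtain ⟨w, hw, rfl⟩ := hm
        have hw1 : w.1 = 1 := by
          apply ioh_inj
          rw [map_one]
          exact hg1
        have hw2 := ih (fun i j t => x i.succ j.succ t) hx.res w hw hw1
        rw [hw2, map_one]
      · exfalso
        obtain ⟨m', hm', c, hc, rfl⟩ := Q_split h hq
        have e1 : g.1.1 = m.1.1 * (wz z s).1.1 * (m'.1.1 * c.1.1) := by rw [e]; rfl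
        have h2 : g.1.1 *ᵥ (Pi.single 0 1 : Fin (k + 2) → K) = Pi.single 0 1 := by rw [hg1', Matrix.one_mulVec]
        rw [e1, ← Matrix.mulVec_mulVec, ← Matrix.mulVec_mulVec, ← Matrix.mulVec_mulVec, hCc c hc, hMc m' hm'] at h2
        have h3 := hval m.1.1 ((wz z s).1.1 *ᵥ Pi.single 0 1) (hMr m hm)
        rw [h2, Matrix.mulVec_single_one] at h3
        have h4 : (wz z s).1.1 = 1 + s • (Matrix.single 0 1 1 : Matrix (Fin (k + 2)) (Fin (k + 2)) K) + (-s⁻¹) • Matrix.single 1 0 1
            + (-1 : K) • Matrix.single 0 0 1 + (-1 : K) • Matrix.single 1 1 1 := ww_val c01 hs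
        rw [h4] at h3
        simp at h3

/-- the elementary matrices generate -/
theorem gen_EE [Nontrivial (Fin n)] (M : SpecialLinearGroup (Fin n) K) :
    M ∈ Subgroup.closure {g : SpecialLinearGroup (Fin n) K | ∃ i j, i ≠ j ∧ ∃ t : K, g = EE K n i j t} := by
  have hE : ∀ i j, i ≠ j → ∀ t : K, EE K n i j t ∈ Subgroup.closure {g : SpecialLinearGroup (Fin n) K | ∃ i j, i ≠ j ∧ ∃ t : K, g = EE K n i j t} :=
    fun i j hij t => Subgroup.subset_closure ⟨i, j, hij, t, rfl⟩
  refine SpecialLinearGroup.diagonal_transvection_induction' _ M ?_ ?_ (fun A B => mul_mem)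
  · intro i j hij c hc
    have h1 : SpecialLinearGroup.diag2n hij c hc = hw (EE K n i j) (EE K n j i) c := by
      apply Subtype.ext
      rw [hw_val hij hc]
      refine (SpecialLinearGroup.diag2n_coe hij c hc).trans ?_
      ext a b
      rcases eq_or_ne a b with rfl | hab
      · by_cases h2 : a = i
        · subst h2; simp [hij.symm]
        · by_cases h3 : a = j
          · subst h3; simp [hij, h2, Matrix.single_apply]
          · simp [h2, h3, Ne.symm h2, Ne.symm h3, Matrix.single_apply]
      · rw [Matrix.diagonal_apply_ne _ hab, Matrix.add_apply, Matrix.add_apply, Matrix.one_apply_ne hab, Matrix.smul_apply, Matrix.smul_apply,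
          Matrix.single_apply, Matrix.single_apply, if_neg (fun e => hab (e.1.symm.trans e.2)), if_neg (fun e => hab (e.1.symm.trans e.2))]
        simp
    rw [h1]
    unfold hw ww
    exact mul_mem (mul_mem (mul_mem (hE _ _ hij _) (hE _ _ hij.symm _)) (hE _ _ hij _))
      (inv_mem (mul_mem (mul_mem (hE _ _ hij _) (hE _ _ hij.symm _)) (hE _ _ hij _)))
  · intro i j hij a
    have h1 := hE i j hij a
    rwa [EE, dif_pos hij] at h1

/-- **Steinberg's presentation**: the relations of the elementary matrices give a homomorphism from `SL_n(K)`. -/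
theorem pres {x : Fin n → Fin n → K → G} (hx : Stn K n x) :
    ∃ f : SpecialLinearGroup (Fin n) K →* G, ∀ i j, i ≠ j → ∀ t : K, f (EE K n i j t) = x i j t := by
  by_cases hn : n ≤ 1
  · refine ⟨1, fun i j hij => absurd (Fin.ext ?_) hij⟩
    have h1 := i.2
    have h2 := j.2
    omega
  · have : Nontrivial (Fin n) := by
      refine ⟨⟨0, by omega⟩, ⟨1, by omega⟩, ?_⟩
      intro e
      exact absurd (congrArg Fin.val e) (by simp)
    let Γ : Subgroup (SpecialLinearGroup (Fin n) K × G) := Subgroup.closure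
      {g : SpecialLinearGroup (Fin n) K × G | ∃ i j, i ≠ j ∧ ∃ t : K, g = (EE K n i j t, x i j t)}
    let π : Γ →* SpecialLinearGroup (Fin n) K := (MonoidHom.fst _ _).comp Γ.subtype
    have hinj : Function.Injective π := by
      rw [injective_iff_map_eq_one]
      intro g hg
      exact Subtype.ext (inj0 n x hx g.1 g.2 hg)
    have hsur : Function.Surjective π := by
      intro M
      have h1 := gen_EE M
      have h2 : Subgroup.closure {g : SpecialLinearGroup (Fin n) K | ∃ i j, i ≠ j ∧ ∃ t : K, g = EE K n i j t} ≤ π.range := by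
        rw [Subgroup.closure_le]
        rintro _ ⟨i, j, hij, t, rfl⟩
        exact ⟨⟨(EE K n i j t, x i j t), Subgroup.subset_closure ⟨i, j, hij, t, rfl⟩⟩, rfl⟩
      exact h2 h1
    let E : Γ ≃* SpecialLinearGroup (Fin n) K := MulEquiv.ofBijective π ⟨hinj, hsur⟩
    refine ⟨((MonoidHom.snd _ _).comp Γ.subtype).comp E.symm.toMonoidHom, fun i j hij t => ?_⟩
    have h1 : E.symm (EE K n i j t) = ⟨(EE K n i j t, x i j t), Subgroup.subset_closure ⟨i, j, hij, t, rfl⟩⟩ := by
      rw [MulEquiv.symm_apply_eq]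
      rfl
    change (E.symm (EE K n i j t)).1.2 = x i j t
    rw [h1]

end ThKS
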